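import Mathlib
import Pool.Agent.W528.ZC.Stm

/-!
# Part TR: the symplectic group is generated by transvections
-/

set_option autoImplicit false

namespace Pool.Agent.W948.ZC.TR

section

variable {K : Type} [Field K] {V : Type} [AddCommGroup V] [Module K V]
  (ω : V →ₗ[K] V →ₗ[K] K)

/-- transvection -/
def tv (c : K) (u : V) : Module.End K V := 1 + c • (ω u).smulRight u

lemma tv_apply (c : K) (u x : V) : tv ω c u x = x + (c * ω u x) • u := by
  simp [tv, mul_smul]

/-- the monoid generated by the transvections -/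
def G : Submonoid (Module.End K V) :=
  Submonoid.closure {T : Module.End K V | ∃ (c : K) (u : V), T = 1 + c • (ω u).smulRight u}

lemma tv_mem (c : K) (u : V) : tv ω c u ∈ G ω := Submonoid.subset_closure ⟨c, u, rfl⟩

variable {ω}

lemma skew (h0 : ∀ v, ω v v = 0) (x y : V) : ω x y = - ω y x := by
  have h := h0 (x + y)
  simp only [map_add, LinearMap.add_apply, h0] at h
  linear_combination h

lemma pres (h0 : ∀ v, ω v v = 0) {T : Module.End K V} (hT : T ∈ G ω) :
    ∀ x y, ω (T x) (T y) = ω x y := by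
  unfold G at hT
  induction hT using Submonoid.closure_induction with
  | mem T h =>
    obtain ⟨c, u, rfl⟩ := h
    intro x y
    have e := skew h0 x u
    have := tv_apply ω c u
    unfold tv at this
    rw [this x, this y]
    simp only [map_add, map_smul, LinearMap.add_apply, LinearMap.smul_apply, h0, smul_eq_mul, e]
    ring
  | one => intro x y; rfl
  | mul A B _ _ hA hB =>
    intro x y
    rw [Module.End.mul_apply, Module.End.mul_apply, hA, hB]

lemma inv (h0 : ∀ v, ω v v = 0) {T : Module.End K V} (hT : T ∈ G ω) :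
    ∃ T' ∈ G ω, T' * T = 1 := by
  unfold G at hT
  induction hT using Submonoid.closure_induction with
  | mem T h =>
    obtain ⟨c, u, rfl⟩ := h
    refine ⟨tv ω (-c) u, tv_mem _ _ _, ?_⟩
    ext x
    have := tv_apply ω c u x
    unfold tv at this
    rw [Module.End.mul_apply, this, tv_apply]
    simp only [map_add, map_smul, h0, smul_eq_mul, mul_zero, add_zero, Module.End.one_apply]
    module
  | one => exact ⟨1, one_mem _, one_mul 1⟩
  | mul A B _ _ hA hB =>
    obtain ⟨A', hA1, hA2⟩ := hA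
    obtain ⟨B', hB1, hB2⟩ := hB
    refine ⟨B' * A', mul_mem hB1 hA1, ?_⟩
    calc B' * A' * (A * B) = B' * ((A' * A) * B) := by simp only [mul_assoc]
      _ = 1 := by rw [hA2, one_mul, hB2]

lemma trans0 (h0 : ∀ v, ω v v = 0) {x y : V} (h : ω y x ≠ 0) : ∃ T ∈ G ω, T x = y := by
  refine ⟨tv ω (ω y x)⁻¹ (y - x), tv_mem _ _ _, ?_⟩
  rw [tv_apply]
  simp only [map_sub, LinearMap.sub_apply, h0, sub_zero]
  rw [inv_mul_cancel₀ h, one_smul]
  abel

lemma transA (h0 : ∀ v, ω v v = 0) (hn : ∀ u, (∀ v, ω u v = 0) → u = 0) {x y : V}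
    (hx : x ≠ 0) (hy : y ≠ 0) : ∃ T ∈ G ω, T x = y := by
  obtain ⟨z1, hz1⟩ : ∃ z, ω x z ≠ 0 := by
    by_contra h
    push Not at h
    exact hx (hn x h)
  obtain ⟨z2, hz2⟩ : ∃ z, ω y z ≠ 0 := by
    by_contra h
    push Not at h
    exact hy (hn y h)
  have hz1' : ω z1 x ≠ 0 := by
    rw [skew h0 z1 x]
    exact neg_ne_zero.2 hz1
  obtain ⟨z, hzx, hyz⟩ : ∃ z, ω z x ≠ 0 ∧ ω y z ≠ 0 := by
    by_cases h1 : ω y z1 = 0
    · by_cases h2 : ω z2 x = 0
      · refine ⟨z1 + z2, ?_, ?_⟩
        · rw [map_add, LinearMap.add_apply, h2, add_zero]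
          exact hz1'
        · rw [map_add, h1, zero_add]
          exact hz2
      · exact ⟨z2, h2, hz2⟩
    · exact ⟨z1, hz1', h1⟩
  obtain ⟨T1, hT1, e1⟩ := trans0 h0 hzx
  obtain ⟨T2, hT2, e2⟩ := trans0 h0 hyz
  exact ⟨T2 * T1, mul_mem hT2 hT1, by rw [Module.End.mul_apply, e1, e2]⟩

lemma trans1 (h0 : ∀ v, ω v v = 0) {x y y' : V} (hy : ω x y = 1) (hy' : ω x y' = 1)
    (h : ω y' y ≠ 0) : ∃ T ∈ G ω, T x = x ∧ T y = y' := by
  refine ⟨tv ω (ω y' y)⁻¹ (y' - y), tv_mem _ _ _, ?_, ?_⟩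
  · rw [tv_apply]
    have e1 := skew h0 y' x
    have e2 := skew h0 y x
    simp only [map_sub, LinearMap.sub_apply, e1, e2, hy, hy', sub_self, mul_zero, zero_smul,
      add_zero]
  · rw [tv_apply]
    simp only [map_sub, LinearMap.sub_apply, h0, sub_zero]
    rw [inv_mul_cancel₀ h, one_smul]
    abel

lemma transB (h0 : ∀ v, ω v v = 0) {x y y' : V} (hy : ω x y = 1) (hy' : ω x y' = 1) :
    ∃ T ∈ G ω, T x = x ∧ T y = y' := by
  by_cases h : ω y' y = 0
  · have e1 : ω x (y + x) = 1 := by rw [map_add, h0, add_zero, hy]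
    have e2 : ω (y + x) y ≠ 0 := by
      rw [map_add, LinearMap.add_apply, h0, zero_add, hy]
      exact one_ne_zero
    have e3 : ω y' (y + x) ≠ 0 := by
      rw [map_add, h, zero_add, skew h0 y' x, hy']
      exact neg_ne_zero.2 one_ne_zero
    obtain ⟨T1, hT1, a1, b1⟩ := trans1 h0 hy e1 e2
    obtain ⟨T2, hT2, a2, b2⟩ := trans1 h0 e1 hy' e3
    exact ⟨T2 * T1, mul_mem hT2 hT1, by rw [Module.End.mul_apply, a1, a2],
      by rw [Module.End.mul_apply, b1, b2]⟩
  · exact trans1 h0 hy hy' h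

end

theorem aux (K : Type) [Field K] (n : ℕ) : ∀ (V : Type) [AddCommGroup V] [Module K V]
    [FiniteDimensional K V] (ω : V →ₗ[K] V →ₗ[K] K), Module.finrank K V = n →
    (∀ v, ω v v = 0) → (∀ u, (∀ v, ω u v = 0) → u = 0) →
    ∀ g : Module.End K V, (∀ u v, ω (g u) (g v) = ω u v) → g ∈ G ω := by
  induction n using Nat.strong_induction_on with
  | _ n ih =>
  intro V _ _ _ ω hn h0 hnd g hg
  by_cases htr : ∀ x : V, x = 0
  · have : g = 1 := by
      ext x
      rw [htr (g x), htr ((1 : Module.End K V) x)]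
    rw [this]
    exact one_mem _
  push Not at htr
  obtain ⟨x, hx⟩ := htr
  obtain ⟨z, hz⟩ : ∃ z, ω x z ≠ 0 := by
    by_contra h
    push Not at h
    exact hx (hnd x h)
  obtain ⟨y, hy⟩ : ∃ y, ω x y = 1 := ⟨(ω x z)⁻¹ • z, by
    rw [map_smul, smul_eq_mul, inv_mul_cancel₀ hz]⟩
  have hyx : ω y x = -1 := by rw [skew h0, hy]
  have hgx : g x ≠ 0 := by
    intro h
    have h1 := hg x y
    rw [h, hy, map_zero, LinearMap.zero_apply] at h1
    exact zero_ne_one h1
  obtain ⟨T1, hT1, e1⟩ := transA h0 hnd hgx hx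
  have e2 : ω x (T1 (g y)) = 1 := by
    have h1 := pres h0 hT1 (g x) (g y)
    rw [e1, hg, hy] at h1
    exact h1
  obtain ⟨T2, hT2, a2, b2⟩ := transB h0 e2 hy
  obtain ⟨g2, hg2⟩ : ∃ g2 : Module.End K V, g2 = T2 * (T1 * g) := ⟨_, rfl⟩
  have g2x : g2 x = x := by
    rw [hg2, Module.End.mul_apply, Module.End.mul_apply, e1, a2]
  have g2y : g2 y = y := by
    rw [hg2, Module.End.mul_apply, Module.End.mul_apply, b2]
  have g2p : ∀ u v, ω (g2 u) (g2 v) = ω u v := by
    intro u v
    rw [hg2]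
    simp only [Module.End.mul_apply]
    rw [pres h0 hT2, pres h0 hT1, hg]
  obtain ⟨W, hW⟩ : ∃ W : Submodule K V, W = LinearMap.ker (ω x) ⊓ LinearMap.ker (ω y) :=
    ⟨_, rfl⟩
  have hWm : ∀ w, w ∈ W ↔ ω x w = 0 ∧ ω y w = 0 := by
    intro w
    rw [hW, Submodule.mem_inf, LinearMap.mem_ker, LinearMap.mem_ker]
  have hWg : ∀ w ∈ W, g2 w ∈ W := by
    intro w hw
    rw [hWm] at hw ⊢
    constructor
    · have := g2p x w
      rw [g2x] at this
      rw [this, hw.1]
    · have := g2p y w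
      rw [g2y] at this
      rw [this, hw.2]
  have hdec : ∀ v : V, v - (ω x v) • y + (ω y v) • x ∈ W := by
    intro v
    rw [hWm]
    simp only [map_add, map_sub, map_smul, smul_eq_mul, h0, hy, hyx]
    constructor <;> ring
  have hlt : Module.finrank K W < n := by
    rw [← hn]
    apply Submodule.finrank_lt
    intro h
    have h1 : x ∈ W := by rw [h]; exact Submodule.mem_top
    rw [hWm, hyx] at h1
    exact neg_ne_zero.2 one_ne_zero h1.2
  have hind := ih (Module.finrank K W) hlt W (ω.compl₁₂ W.subtype W.subtype) rfl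
    (fun v => by simp [LinearMap.compl₁₂_apply, h0])
    (fun u hu => by
      apply Subtype.ext
      apply hnd
      intro v
      have h1 := hu ⟨_, hdec v⟩
      rw [LinearMap.compl₁₂_apply] at h1
      simp only [Submodule.subtype_apply, map_add, map_sub, map_smul, smul_eq_mul] at h1
      have h2 := (hWm u).1 u.2
      rw [skew h0 (u : V) y, skew h0 (u : V) x, h2.1, h2.2] at h1
      simpa using h1)
    (g2.restrict hWg)
    (fun u v => by
      simp only [LinearMap.compl₁₂_apply, Submodule.subtype_apply, LinearMap.coe_restrict_apply]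
      exact g2p u v)
  have key : ∀ t ∈ G (ω.compl₁₂ W.subtype W.subtype), ∃ T ∈ G ω,
      (∀ w : W, T (w : V) = (t w : V)) ∧ T x = x ∧ T y = y := by
    intro t ht
    unfold G at ht
    induction ht using Submonoid.closure_induction with
    | mem t h =>
      obtain ⟨c, u, rfl⟩ := h
      have h2 := (hWm u).1 u.2
      refine ⟨tv ω c (u : V), tv_mem _ _ _, ?_, ?_, ?_⟩
      · intro w
        rw [tv_apply]
        simp [LinearMap.compl₁₂_apply, mul_smul]
      · rw [tv_apply, skew h0 (u : V) x, h2.1]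
        simp
      · rw [tv_apply, skew h0 (u : V) y, h2.2]
        simp
    | one => exact ⟨1, one_mem _, fun w => rfl, rfl, rfl⟩
    | mul A B _ _ hA hB =>
      obtain ⟨A', hA1, hA2, hA3, hA4⟩ := hA
      obtain ⟨B', hB1, hB2, hB3, hB4⟩ := hB
      refine ⟨A' * B', mul_mem hA1 hB1, fun w => ?_, ?_, ?_⟩
      · rw [Module.End.mul_apply, Module.End.mul_apply, hB2, hA2]
      · rw [Module.End.mul_apply, hB3, hA3]
      · rw [Module.End.mul_apply, hB4, hA4]
  obtain ⟨T, hT, hTw, hTx, hTy⟩ := key _ hind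
  have hTg : T = g2 := by
    ext v
    have h1 := hTw ⟨_, hdec v⟩
    rw [LinearMap.coe_restrict_apply] at h1
    simp only [map_add, map_sub, map_smul, hTx, hTy, g2x, g2y] at h1
    exact sub_left_injective (add_left_injective _ h1)
  obtain ⟨T1', hT1', i1⟩ := inv h0 hT1
  obtain ⟨T2', hT2', i2⟩ := inv h0 hT2
  have hfin : g = T1' * (T2' * g2) := by
    rw [hg2, ← mul_assoc T2', i2, one_mul, ← mul_assoc, i1, one_mul]
  rw [hfin, ← hTg]
  exact mul_mem hT1' (mul_mem hT2' hT)

theorem main : Pool.Agent.W528.ZC.TR := by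
  intro K _ V _ _ _ ω h0 hn g hg
  exact aux K _ V ω rfl h0 hn g hg

end Pool.Agent.W948.ZC.TR
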